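import Pool.Agent.W438.CY.Stm

set_option autoImplicit false

namespace Pool.Agent.W292.CY

open Function Pool.Agent.W438.CY

theorem kl : S_KL := by
  intro m C x g p j hjp hb
  obtain ⟨hlt, hbet⟩ := hjp
  have hjne : j ≠ p := hlt.ne
  set h := update (update g j (g p)) p (g j - 1) with hh
  have hj : h j = g p := by simp [hh, update, hjne]
  have hp : h p = g j - 1 := by simp [hh]
  have ho : ∀ l, l ≠ j → l ≠ p → h l = g l := by
    intro l h1 h2
    simp [hh, update, h1, h2]
  clear_value h
  constructor
  · intro H
    refine ⟨?_, ?_, ?_⟩
    · rintro i k ⟨hik, hI⟩ hip hkp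
      refine H i k ⟨hik, ?_⟩ hip hkp
      intro l hil hlk
      have F1 := hI j
      have F2 := hI p
      have F3 := hbet i
      have F4 := hbet k
      have F5 := hbet l
      have F6 := hI l hil hlk
      have vi : h i = g i ∧ i ≠ j ∨ h i = g p ∧ i = j := by
        by_cases e : i = j
        · right; exact ⟨by rw [e, hj], e⟩
        · left; exact ⟨ho i e hip, e⟩
      have vk : h k = g k ∧ k ≠ j ∨ h k = g p ∧ k = j := by
        by_cases e : k = j
        · right; exact ⟨by rw [e, hj], e⟩
        · left; exact ⟨ho k e hkp, e⟩
      rcases eq_or_ne l j with e3 | e3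
      · subst e3
        rw [hj]
        rcases vi with ⟨v1, v2⟩ | ⟨v1, v2⟩
        · rcases vk with ⟨w1, w2⟩ | ⟨w1, w2⟩
          · rw [v1, w1]
            rcases lt_or_gt_of_ne hkp with c | c
            · have := F4 hlk c
              omega
            · exact F2 (hil.trans hlt) c
          · subst w2
            exact absurd hlk (lt_irrefl _)
        · subst v2
          exact absurd hil (lt_irrefl _)
      · rcases eq_or_ne l p with e4 | e4
        · subst e4
          rw [hp]
          rcases vi with ⟨v1, v2⟩ | ⟨v1, v2⟩
          · rcases vk with ⟨w1, w2⟩ | ⟨w1, w2⟩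
            · rw [v1, w1]
              omega
            · subst w2
              exact absurd (hlt.trans hlk) (lt_irrefl _)
          · subst v2
            omega
        · rw [ho l e3 e4]
          rcases vi with ⟨v1, v2⟩ | ⟨v1, v2⟩
          · rcases vk with ⟨w1, w2⟩ | ⟨w1, w2⟩
            · rw [v1, w1]
              exact F6
            · subst w2
              rw [v1, w1]
              omega
          · subst v2
            rcases vk with ⟨w1, w2⟩ | ⟨w1, w2⟩
            · rw [v1, w1]
              omega
            · subst w2
              exact absurd hik (lt_irrefl _)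
    · rintro l hlj ⟨hlp, hI⟩
      refine H l j ⟨hlj, ?_⟩ hlp.ne hjne
      intro t hlt' htj
      rw [ho l hlj.ne hlp.ne, hj, ho t htj.ne (htj.trans hlt).ne]
      exact hI t hlt' (htj.trans hlt)
    · rintro l ⟨hpl, hI⟩ hl
      refine (H j l ⟨hlt.trans hpl, ?_⟩ hjne hpl.ne').symm
      intro t hjt htl
      rw [hj, ho l (hlt.trans hpl).ne' hpl.ne']
      rcases lt_trichotomy t p with c | c | c
      · rw [ho t hjt.ne' c.ne]
        have := hbet t hjt c
        omega
      · subst c
        rw [hp]
        omega
      · rw [ho t hjt.ne' c.ne']
        exact hI t c htl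
  · rintro ⟨H, N1, N2⟩
    rintro i k ⟨hik, hI⟩ hip hkp
    have I1 := hI j
    have I2 := hI p
    rw [hj] at I1
    rw [hp] at I2
    rcases eq_or_ne k j with ek | ek
    · subst ek
      rw [hj] at hI
      rw [ho i hik.ne hip] at hI
      have hI' : ∀ l, i < l → l < k → g i ≤ g l ∧ g p < g l := by
        intro l h1 h2
        have := hI l h1 h2
        rwa [ho l h2.ne (h2.trans hlt).ne] at this
      by_cases hc : g i ≤ g k
      · refine N1 i hik ⟨hik.trans hlt, ?_⟩
        intro t h1 h2
        rcases lt_trichotomy t k with c | c | c
        · exact hI' t h1 c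
        · subst c
          omega
        · have := hbet t c h2
          omega
      · refine H i k ⟨hik, ?_⟩ hip hkp
        intro t h1 h2
        have := hI' t h1 h2
        omega
    rcases eq_or_ne i j with ei | ei
    · subst ei
      rw [hj, ho k ek hkp] at hI
      rw [ho k ek hkp] at I2
      rcases lt_or_gt_of_ne hkp with c | c
      · refine H i k ⟨hik, ?_⟩ hip hkp
        intro t h1 h2
        have h3 := hI t h1 h2
        rw [ho t h1.ne' (h2.trans c).ne] at h3
        have := hbet t h1 (h2.trans c)
        omega
      · refine (N2 k ⟨c, ?_⟩ ?_).symm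
        · intro t h1 h2
          have h3 := hI t (hlt.trans h1) h2
          rwa [ho t (hlt.trans h1).ne' h1.ne'] at h3
        · have := I2 hlt c
          omega
    · rw [ho i ei hip, ho k ek hkp] at hI I1 I2
      refine H i k ⟨hik, ?_⟩ hip hkp
      intro t h1 h2
      have h3 := hI t h1 h2
      rcases eq_or_ne t j with et | et
      · subst et
        have := I1 h1 h2
        omega
      · rcases eq_or_ne t p with et' | et'
        · subst et'
          rcases lt_trichotomy i j with c | c | c
          · exact I1 c (hlt.trans h2)
          · exact absurd c ei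
          · have h4 := hbet i c h1
            have h5 := I2 h1 h2
            omega
        · rwa [ho t et et'] at h3

end Pool.Agent.W292.CY
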